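import Pool.Agent.W785.FD.Stms

/-! FD-CP0: sets of Sobolev capacity zero are exceptional. -/

set_option autoImplicit false

open MeasureTheory Metric Set Filter
open scoped ENNReal NNReal Topology

namespace Pool.Agent.W917.FD.CP0

open Pool.Agent.W785.FD

universe u

/-- subcurve -/
noncomputable def sub {X : Type u} [MetricSpace X] (c : Crv X) (m l : ℝ) (hl : 0 ≤ l) : Crv X where
  l := l
  nonneg := hl
  γ := fun s => c.γ (m + s)
  lip := by
    have h : LipschitzWith 1 (fun s : ℝ => m + s) := (isometry_add_left m).lipschitz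
    have := c.lip.comp h
    rw [mul_one] at this
    exact this

theorem sub_int {X : Type u} [MetricSpace X] (c : Crv X) (m l : ℝ) (hl : 0 ≤ l) (g : X → ℝ≥0∞) :
    (sub c m l hl).int g = ∫⁻ t in Icc m (m + l), g (c.γ t) := by
  unfold Crv.int sub
  simp only
  rw [← lintegral_indicator measurableSet_Icc, ← lintegral_indicator measurableSet_Icc]
  rw [← lintegral_add_left_eq_self ((Icc m (m + l)).indicator (fun t => g (c.γ t))) m]
  refine lintegral_congr fun s => ?_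
  by_cases h : s ∈ Icc (0 : ℝ) l
  · rw [indicator_of_mem h, indicator_of_mem]
    exact ⟨by linarith [h.1], by linarith [h.2]⟩
  · rw [indicator_of_notMem h, indicator_of_notMem]
    intro h'
    exact h ⟨by linarith [h'.1], by linarith [h'.2]⟩

/-- the upper gradient inequality between two points of a curve -/
theorem ug_between {X : Type u} [MetricSpace X] [MeasurableSpace X] {u : X → ℝ} {g : X → ℝ≥0∞}
    (hug : UG u g) (c : Crv X) {t t0 : ℝ} (ht : t ∈ Icc 0 c.l) (ht0 : t0 ∈ Icc 0 c.l) :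
    ENNReal.ofReal |u (c.γ t) - u (c.γ t0)| ≤ c.int g := by
  have key : ∀ {a b : ℝ}, a ∈ Icc 0 c.l → b ∈ Icc 0 c.l → a ≤ b →
      ENNReal.ofReal |u (c.γ a) - u (c.γ b)| ≤ c.int g := by
    intro a b ha hb hab
    have h := hug.2 (sub c a (b - a) (by linarith))
    unfold CrvIneq at h
    rw [sub_int] at h
    have e1 : (sub c a (b - a) (by linarith)).γ 0 = c.γ a := by simp [sub]
    have e2 : (sub c a (b - a) (by linarith)).γ (sub c a (b - a) (by linarith)).l = c.γ b := by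
      simp [sub]
    rw [e1, e2] at h
    refine h.trans ?_
    unfold Crv.int
    refine lintegral_mono_set ?_
    intro s hs
    exact ⟨ha.1.trans hs.1, by linarith [hs.2, hb.2]⟩
  rcases le_total t t0 with h | h
  · exact key ht ht0 h
  · rw [abs_sub_comm]
    exact key ht0 ht h

theorem exists_bd {X : Type u} [MeasurableSpace X] {μ : Measure X} {u : X → ℝ}
    (hu : AEMeasurable u μ) (p : ℝ) : ∃ b : X → ℝ≥0∞, Measurable b ∧
      (∀ x, ENNReal.ofReal |u x| ≤ b x) ∧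
      ∫⁻ x, b x ^ p ∂μ = ∫⁻ x, (ENNReal.ofReal |u x|) ^ p ∂μ := by
  classical
  set N : Set X := toMeasurable μ {x | ¬ u x = hu.mk u x} with hN
  have hN0 : μ N = 0 := by
    rw [hN, measure_toMeasurable]
    exact hu.ae_eq_mk
  have hNm : MeasurableSet N := measurableSet_toMeasurable _ _
  have hsub : ∀ x, x ∉ N → u x = hu.mk u x := by
    intro x hx
    by_contra h
    exact hx (subset_toMeasurable _ _ h)
  refine ⟨fun x => if x ∈ N then ∞ else ENNReal.ofReal |hu.mk u x|, ?_, ?_, ?_⟩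
  · refine Measurable.ite hNm measurable_const ?_
    exact (hu.measurable_mk.abs).ennreal_ofReal
  · intro x
    by_cases h : x ∈ N
    · simp [h]
    · simp only [h, if_false]
      rw [hsub x h]
  · refine lintegral_congr_ae ?_
    have : ∀ᵐ x ∂μ, x ∉ N := measure_eq_zero_iff_ae_notMem.1 hN0
    filter_upwards [this] with x hx
    simp only [hx, if_false]
    rw [hsub x hx]

theorem main {X : Type*} [MetricSpace X] [ProperSpace X] [MeasurableSpace X] [BorelSpace X]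
    (μ : Measure X) (p : ℝ) (hp : 1 < p) (h : S_STR μ p) : S_CP0 μ p := by
  intro E hE
  have hp0 : 0 < p := by linarith
  -- functions of small norm
  have hsmall : ∀ δ : ℝ≥0∞, 0 < δ → ∃ u : X → ℝ, AEMeasurable u μ ∧ (∀ x ∈ E, 1 ≤ u x) ∧
      (∫⁻ x, (ENNReal.ofReal |u x|) ^ p ∂μ + En μ p u) < δ := by
    intro δ hδ
    have h1 : Cp μ p E < δ := by rw [hE]; exact hδ
    unfold Cp at h1
    simp only [iInf_lt_iff] at h1
    obtain ⟨u, h2, h3, h4⟩ := h1
    exact ⟨u, h2, h3, h4⟩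
  refine ⟨?_, ?_⟩
  · -- measure zero
    refine le_antisymm (le_of_forall_gt fun δ hδ => ?_) zero_le
    obtain ⟨u, hu, hu1, hlt⟩ := hsmall δ hδ
    have hm := mul_meas_ge_le_lintegral₀ (μ := μ) (f := fun x => (ENNReal.ofReal |u x|) ^ p)
      ((hu.abs.ennreal_ofReal).pow_const p) 1
    rw [one_mul] at hm
    calc μ E ≤ μ {x | 1 ≤ (ENNReal.ofReal |u x|) ^ p} := by
          refine measure_mono fun x hx => ?_
          have h1 : (1 : ℝ≥0∞) ≤ ENNReal.ofReal |u x| := by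
            rw [← ENNReal.ofReal_one]
            exact ENNReal.ofReal_le_ofReal ((hu1 x hx).trans (le_abs_self _))
          exact ENNReal.one_le_rpow h1 hp0
      _ ≤ ∫⁻ x, (ENNReal.ofReal |u x|) ^ p ∂μ := hm
      _ ≤ ∫⁻ x, (ENNReal.ofReal |u x|) ^ p ∂μ + En μ p u := le_self_add
      _ < δ := hlt
  · -- the sequence
    have hw : ∀ n : ℕ, ((2 : ℝ≥0∞) ^ n) ^ p ≠ 0 ∧ ((2 : ℝ≥0∞) ^ n) ^ p ≠ ∞ := by
      intro n
      refine ⟨?_, ?_⟩
      · exact (ENNReal.rpow_pos (by positivity) (ENNReal.pow_ne_top ENNReal.ofNat_ne_top)).ne'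
      · exact ENNReal.rpow_ne_top_of_nonneg hp0.le (ENNReal.pow_ne_top ENNReal.ofNat_ne_top)
    have hδpos : ∀ n : ℕ, 0 < (2⁻¹ : ℝ≥0∞) ^ n / ((2 : ℝ≥0∞) ^ n) ^ p := by
      intro n
      refine ENNReal.div_pos ?_ (hw n).2
      exact pow_ne_zero n (by simp)
    choose u hu hu1 hul using fun n : ℕ => hsmall _ (hδpos n)
    have hg : ∀ n, ∃ g, UG (u n) g ∧
        ∫⁻ x, g x ^ p ∂μ < (2⁻¹ : ℝ≥0∞) ^ n / ((2 : ℝ≥0∞) ^ n) ^ p :=
      fun n => h (u n) _ (lt_of_le_of_lt le_add_self (hul n))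
    choose g hg hgl using hg
    choose b hbm hb hbi using fun n : ℕ => exists_bd (hu n) p
    have hbl : ∀ n, ∫⁻ x, b n x ^ p ∂μ ≤ (2⁻¹ : ℝ≥0∞) ^ n / ((2 : ℝ≥0∞) ^ n) ^ p := by
      intro n
      rw [hbi]
      exact (lt_of_le_of_lt le_self_add (hul n)).le
    let F : ℕ → X → ℝ≥0∞ := fun n x => (2 ^ n * g n x) ^ p + (2 ^ n * b n x) ^ p
    have hFm : ∀ n, Measurable (F n) := fun n =>
      ((((hg n).1).const_mul _).pow_const _).add (((hbm n).const_mul _).pow_const _)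
    let H : X → ℝ≥0∞ := fun x => (∑' n, F n x) ^ (1 / p)
    have hHm : Measurable H := (Measurable.ennreal_tsum hFm).pow_const _
    have hHp : ∀ x, H x ^ p = ∑' n, F n x := by
      intro x
      show ((∑' n, F n x) ^ (1 / p)) ^ p = _
      rw [← ENNReal.rpow_mul, one_div, inv_mul_cancel₀ hp0.ne', ENNReal.rpow_one]
    have hFle : ∀ n x, F n x ≤ H x ^ p := fun n x => by
      rw [hHp]; exact ENNReal.le_tsum n
    have hgH : ∀ n x, 2 ^ n * g n x ≤ H x := by
      intro n x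
      rw [← ENNReal.rpow_le_rpow_iff hp0]
      exact le_self_add.trans (hFle n x)
    have hbH : ∀ n x, 2 ^ n * b n x ≤ H x := by
      intro n x
      rw [← ENNReal.rpow_le_rpow_iff hp0]
      exact le_add_self.trans (hFle n x)
    have hinv : ∀ (n : ℕ) (a : ℝ≥0∞), a = (2⁻¹ : ℝ≥0∞) ^ n * (2 ^ n * a) := by
      intro n a
      rw [← mul_assoc, ← mul_pow, ENNReal.inv_mul_cancel (by simp) (by simp), one_pow, one_mul]
    have hgH' : ∀ n x, g n x ≤ (2⁻¹ : ℝ≥0∞) ^ n * H x := by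
      intro n x
      rw [hinv n (g n x)]
      gcongr
      exact hgH n x
    have hbH' : ∀ n x, b n x ≤ (2⁻¹ : ℝ≥0∞) ^ n * H x := by
      intro n x
      rw [hinv n (b n x)]
      gcongr
      exact hbH n x
    refine ⟨H, hHm, ?_, ?_⟩
    · -- integrability
      have h1 : ∫⁻ x, H x ^ p ∂μ = ∑' n, ∫⁻ x, F n x ∂μ := by
        simp_rw [hHp]
        exact lintegral_tsum fun n => (hFm n).aemeasurable
      rw [h1]
      have h2 : ∀ n, ∫⁻ x, F n x ∂μ ≤ 2 * (2⁻¹ : ℝ≥0∞) ^ n := by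
        intro n
        have h3 : ∀ f : X → ℝ≥0∞, Measurable f →
            ∫⁻ x, f x ^ p ∂μ ≤ (2⁻¹ : ℝ≥0∞) ^ n / ((2 : ℝ≥0∞) ^ n) ^ p →
            ∫⁻ x, (2 ^ n * f x) ^ p ∂μ ≤ (2⁻¹ : ℝ≥0∞) ^ n := by
          intro f hf hfl
          calc ∫⁻ x, (2 ^ n * f x) ^ p ∂μ = ∫⁻ x, ((2 : ℝ≥0∞) ^ n) ^ p * f x ^ p ∂μ := by
                refine lintegral_congr fun x => ?_
                rw [ENNReal.mul_rpow_of_nonneg _ _ hp0.le]
            _ = ((2 : ℝ≥0∞) ^ n) ^ p * ∫⁻ x, f x ^ p ∂μ :=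
                lintegral_const_mul _ (hf.pow_const _)
            _ ≤ ((2 : ℝ≥0∞) ^ n) ^ p * ((2⁻¹ : ℝ≥0∞) ^ n / ((2 : ℝ≥0∞) ^ n) ^ p) := by gcongr
            _ = (2⁻¹ : ℝ≥0∞) ^ n := ENNReal.mul_div_cancel (hw n).1 (hw n).2
        calc ∫⁻ x, F n x ∂μ = ∫⁻ x, (2 ^ n * g n x) ^ p ∂μ + ∫⁻ x, (2 ^ n * b n x) ^ p ∂μ :=
              lintegral_add_left ((((hg n).1).const_mul _).pow_const _) _
          _ ≤ (2⁻¹ : ℝ≥0∞) ^ n + (2⁻¹ : ℝ≥0∞) ^ n :=
              add_le_add (h3 _ (hg n).1 (hgl n).le) (h3 _ (hbm n) (hbl n))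
          _ = 2 * (2⁻¹ : ℝ≥0∞) ^ n := by ring
      calc ∑' n, ∫⁻ x, F n x ∂μ ≤ ∑' n : ℕ, 2 * (2⁻¹ : ℝ≥0∞) ^ n := ENNReal.tsum_le_tsum h2
        _ = 2 * ∑' n : ℕ, (2⁻¹ : ℝ≥0∞) ^ n := ENNReal.tsum_mul_left
        _ < ∞ := by
            rw [ENNReal.tsum_geometric, ENNReal.one_sub_inv_two, inv_inv]
            exact ENNReal.mul_lt_top (by simp) (by simp)
    · intro c hc
      by_contra hcon
      push Not at hcon
      obtain ⟨⟨t0, ht0, hE0⟩, hfin⟩ := hcon
      have hI : ∀ n, c.int (g n) ≤ (2⁻¹ : ℝ≥0∞) ^ n * c.int H ∧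
          c.int (b n) ≤ (2⁻¹ : ℝ≥0∞) ^ n * c.int H := by
        intro n
        have hne : (2⁻¹ : ℝ≥0∞) ^ n ≠ ∞ := ENNReal.pow_ne_top (by simp)
        constructor
        · unfold Crv.int
          rw [← lintegral_const_mul' _ _ hne]
          exact lintegral_mono fun t => hgH' n _
        · unfold Crv.int
          rw [← lintegral_const_mul' _ _ hne]
          exact lintegral_mono fun t => hbH' n _
      have hlim : Tendsto (fun n : ℕ => (2⁻¹ : ℝ≥0∞) ^ n * c.int H) atTop (𝓝 0) := by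
        have h1 := ENNReal.Tendsto.mul_const (b := c.int H)
          (ENNReal.tendsto_pow_atTop_nhds_zero_of_lt_one (r := (2⁻¹ : ℝ≥0∞))
            ENNReal.one_half_lt_one) (Or.inr hfin)
        rwa [zero_mul] at h1
      have he1 : (0 : ℝ≥0∞) < ENNReal.ofReal (1 / 2) := by simp
      have he2 : (0 : ℝ≥0∞) < ENNReal.ofReal (c.l / 2) := by
        rw [ENNReal.ofReal_pos]; linarith
      obtain ⟨n, hn1, hn2⟩ := ((hlim.eventually (gt_mem_nhds he1)).and
        (hlim.eventually (gt_mem_nhds he2))).exists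
      have hu2 : ∀ t ∈ Icc 0 c.l, 1 / 2 ≤ u n (c.γ t) := by
        intro t ht
        have h1 := (ug_between (hg n) c ht ht0).trans ((hI n).1.trans hn1.le)
        rw [ENNReal.ofReal_le_ofReal_iff (by norm_num)] at h1
        have h2 := hu1 n _ hE0
        have h3 := (abs_le.1 h1).1
        linarith
      have h4 : ENNReal.ofReal (c.l / 2) ≤ c.int (b n) := by
        unfold Crv.int
        calc ENNReal.ofReal (c.l / 2) = ∫⁻ t in Icc 0 c.l, ENNReal.ofReal (1 / 2) := by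
              rw [setLIntegral_const, Real.volume_Icc, ← ENNReal.ofReal_mul (by norm_num)]
              congr 1; ring
          _ ≤ ∫⁻ t in Icc 0 c.l, b n (c.γ t) := by
              refine setLIntegral_mono' measurableSet_Icc fun t ht => ?_
              refine le_trans (ENNReal.ofReal_le_ofReal ?_) (hb n _)
              exact (hu2 t ht).trans (le_abs_self _)
      exact absurd (lt_of_le_of_lt (h4.trans (hI n).2) hn2) (lt_irrefl _)

end Pool.Agent.W917.FD.CP0
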